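import Pool.Agent.V11210.SPH.Upper
import Pool.Agent.V11210.SPH.Lower

/-!
# MP_c6d336_gt, Q1: `N = 3`

Every two nontrivial elements `A`, `B` of the identity component of the group of homeomorphisms of
the 2-sphere satisfy: `B` is a product of exactly three conjugates of `A` in the full group of
homeomorphisms.  Neither one nor two conjugates suffice in general.
-/

set_option autoImplicit false

open Module

namespace Pool.Agent.Results.MP_c6d336_gt.ExactlyThree

open Pool.Agent.V11210.SPH

theorem result : IsLeast {n : ℕ | 1 ≤ n ∧ ConjProd Sphere2 n} 3 := by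
  have e : OnePoint ℂ ≃ₜ Sphere2 := onePointEquivSphereOfFinrankEq (ι := Fin 3) (V := ℂ) (by
    rw [Complex.finrank_real_complex, Fintype.card_fin])
  refine ⟨⟨by norm_num, conjProd_three.transfer e⟩, ?_⟩
  rintro n ⟨h1, h2⟩
  by_contra h3
  have h4 := h2.transfer e.symm
  have h5 : n = 1 ∨ n = 2 := by omega
  rcases h5 with rfl | rfl
  · exact not_conjProd_one h4
  · exact not_conjProd_two h4

end Pool.Agent.Results.MP_c6d336_gt.ExactlyThree
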